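import Pool.Agent.H23.GbProof

set_option autoImplicit false

open Pool.Agent.H23.Gb

namespace Pool.Agent.Results.MP_443e5f_co.Five

theorem result : ∀ (P : Finset ℕ) (n : ℕ), (∀ p ∈ P, p.Prime ∧ Odd p) → 6 * ∏ p ∈ P, p + 3 ≤ n →
    (⨅ p ∈ P, sieveGraph p n).ediam ≤ 5 :=
  fun P n hP hn => upper P hP n hn

end Pool.Agent.Results.MP_443e5f_co.Five
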