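import Pool.Agent.H23.GbProof

set_option autoImplicit false

open Pool.Agent.H23.Gb

namespace Pool.Agent.Results.MP_443e5f_co.Lower

lemma three_of_prime {m : ℕ} (hm : m.Prime) (h : m % 3 = 0) : m = 3 :=
  ((Nat.prime_dvd_prime_iff_eq Nat.prime_three hm).1 (Nat.dvd_of_mod_eq_zero h)).symm

theorem result : ∀ n : ℕ, 125 ≤ n → 5 ≤ min (goldbach n).ediam (nearGoldbach n).ediam := by
  refine fun n hn => le_min ?_ ?_
  · refine le_trans ?_ (SimpleGraph.edist_le_ediam
      (u := ⟨250, by decide, by omega, by omega⟩) (v := ⟨52, by decide, by omega, by omega⟩))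
    refine lower _ (fun m => m.Prime ∧ Odd m ∧ m < 2 * n) (fun a b h => half_adj h)
      (fun m h => Nat.odd_iff.1 h.2.1) (fun m h => three_of_prime h.1) _ _ 125 26
      (by norm_num) (by norm_num) (by norm_num) (by norm_num) (by norm_num) (by norm_num)
      (by norm_num) (by norm_num) ?_ ?_ ?_ ?_ (Or.inr ?_) <;>
    · rintro ⟨h, -⟩
      norm_num at h
  · refine le_trans ?_ (SimpleGraph.edist_le_ediam
      (u := ⟨250, by decide, by omega, by omega⟩) (v := ⟨52, by decide, by omega, by omega⟩))
    refine lower _ (fun m => m = 1 ∨ (m.Prime ∧ Odd m ∧ m < 2 * n)) (fun a b h => half_adj h)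
      (fun m h => ?_) (fun m h h3 => ?_) _ _ 125 26
      (by norm_num) (by norm_num) (by norm_num) (by norm_num) (by norm_num) (by norm_num)
      (by norm_num) (by norm_num) ?_ ?_ ?_ ?_ (Or.inl le_rfl)
    · rcases h with rfl | h
      · rfl
      · exact Nat.odd_iff.1 h.2.1
    · rcases h with rfl | h
      · omega
      · exact three_of_prime h.1 h3
    all_goals
      rintro (h | ⟨h, -⟩) <;> norm_num at h

end Pool.Agent.Results.MP_443e5f_co.Lower
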